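import Pool.Agent.Q269.GJ.StF
import Pool.Agent.Q162.GR.PRD

/-!
# Project GJ (helper269), job GJ-EXT: no growth over the extension
-/

set_option autoImplicit false
set_option linter.all false

open scoped Classical
open Finset Polynomial

namespace Pool.Agent.Q174.GJ

open Pool.Agent.Q269.GJ
open Pool.Agent.Q269.GR (F2 cf ev Un Eb dl IsRt gg hv own Irn Dn pr Fr xi fr ph fp Om rt)
open Pool.Agent.Y164.PS (L)
open Pool.Agent.Y164.HG (Geo Del Tau QQ EW AT BT Triv Symp om Dat dg FF E1 E2 TT e2)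

section dec

variable {k k' : Type} [Field k] [Fintype k] [Field k'] [Fintype k'] [Algebra k k']

theorem mem_pr' {D P : k[X]} (h : P ∈ pr D) : P.Monic ∧ Irreducible P := by
  rw [pr, Multiset.mem_toFinset] at h
  refine ⟨?_, UniqueFactorizationMonoid.irreducible_of_normalized_factor P h⟩
  have h1 := UniqueFactorizationMonoid.normalize_normalized_factor P h
  have h2 := Polynomial.monic_normalize
    (UniqueFactorizationMonoid.irreducible_of_normalized_factor P h).ne_zero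
  rwa [h1] at h2

theorem coprime_irr {k : Type} [Field k] {P Q : k[X]} (hP : P.Monic) (hQ : Q.Monic)
    (hP' : Irreducible P) (hQ' : Irreducible Q) (h : P ≠ Q) : IsCoprime P Q := by
  rw [hP'.coprime_iff_not_dvd]
  intro hd
  exact h (Polynomial.eq_of_monic_of_associated hP hQ (hP'.associated_of_dvd hQ' hd))

/-- the sum over the prime factors of `D` over `k'` -/
theorem sum_dec (h7 : Pool.Agent.Q269.GR.S_FCT) (h8 : Pool.Agent.Q269.GR.S_FCD) (j : k' →ₐ[k] Om k) {D : k[X]} (hD0 : D ≠ 0)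
    {M : Type} [AddCommMonoid M] (f : k'[X] → M) :
    ∑ T ∈ pr (D.map (algebraMap k k')), f T = ∑ P ∈ pr D,
      ∑ c ∈ range (Nat.gcd (Module.finrank k k') P.natDegree), f ((ph k)^[c] (fp j P)) := by
  obtain ⟨f1, f2, -⟩ := h8 k k' j
  rw [f1 D hD0, sum_biUnion]
  · refine sum_congr rfl fun P hP => ?_
    obtain ⟨hm, hi⟩ := mem_pr' hP
    obtain ⟨-, -, -, -, -, k6, -⟩ := h7 k k' j P hm hi
    rw [sum_image]
    intro c hc c' hc' hcc
    rw [coe_range, Set.mem_Iio] at hc hc'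
    have := (k6 c c').1 hcc
    rw [Nat.ModEq, Nat.mod_eq_of_lt hc, Nat.mod_eq_of_lt hc'] at this
    exact this
  · intro P1 hP1 P2 hP2 hne
    rw [Function.onFun, disjoint_left]
    intro T hT1 hT2
    rw [mem_image] at hT1 hT2
    obtain ⟨c1, -, rfl⟩ := hT1
    obtain ⟨c2, -, hc2⟩ := hT2
    obtain ⟨m1, i1⟩ := mem_pr' hP1
    obtain ⟨m2, i2⟩ := mem_pr' hP2
    exact f2 P1 P2 m1 i1 m2 i2 hne c1 c2 hc2.symm

/-- every prime factor over `k'` is a conjugate of a `fp j P` -/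
theorem ex_dec (h8 : Pool.Agent.Q269.GR.S_FCD) (j : k' →ₐ[k] Om k) {D : k[X]} (hD0 : D ≠ 0) {T : k'[X]}
    (hT : T ∈ pr (D.map (algebraMap k k'))) : ∃ P ∈ pr D, ∃ c : ℕ, T = (ph k)^[c] (fp j P) := by
  obtain ⟨f1, -, -⟩ := h8 k k' j
  rw [f1 D hD0, mem_biUnion] at hT
  obtain ⟨P, hP, h⟩ := hT
  rw [mem_image] at h
  obtain ⟨c, -, rfl⟩ := h
  exact ⟨P, hP, c, rfl⟩

/-- the conjugates are prime factors -/
theorem mem_dec (h7 : Pool.Agent.Q269.GR.S_FCT) (h8 : Pool.Agent.Q269.GR.S_FCD) (j : k' →ₐ[k] Om k) {D : k[X]} (hD0 : D ≠ 0)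
    {P : k[X]} (hP : P ∈ pr D) (c : ℕ) : (ph k)^[c] (fp j P) ∈ pr (D.map (algebraMap k k')) := by
  obtain ⟨f1, -, -⟩ := h8 k k' j
  obtain ⟨hm, hi⟩ := mem_pr' hP
  obtain ⟨-, -, -, -, -, k6, -⟩ := h7 k k' j P hm hi
  rw [f1 D hD0, mem_biUnion]
  refine ⟨P, hP, ?_⟩
  rw [mem_image]
  have hg : 0 < Nat.gcd (Module.finrank k k') P.natDegree := Nat.gcd_pos_of_pos_right _ hi.natDegree_pos
  refine ⟨c % Nat.gcd (Module.finrank k k') P.natDegree, mem_range.2 (Nat.mod_lt _ hg), ?_⟩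
  rw [k6]
  exact Nat.mod_modEq _ _

/-- the period -/
theorem per_dec (h7 : Pool.Agent.Q269.GR.S_FCT) (j : k' →ₐ[k] Om k) {P : k[X]} (hm : P.Monic) (hi : Irreducible P)
    (c : ℕ) : (ph k)^[c + Module.finrank k k'] (fp j P) = (ph k)^[c] (fp j P) := by
  obtain ⟨-, -, -, -, -, k6, -⟩ := h7 k k' j P hm hi
  rw [k6]
  have h : Module.finrank k k' ≡ 0 [MOD Nat.gcd (Module.finrank k k') P.natDegree] :=
    Nat.modEq_zero_iff_dvd.2 (Nat.gcd_dvd_left _ _)
  exact (Nat.ModEq.add_left c h)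

/-- the sum of the symbols of the conjugates -/
theorem sum_L (h7 : Pool.Agent.Q269.GR.S_FCT) (j : k' →ₐ[k] Om k) {P : k[X]} (hm : P.Monic) (hi : Irreducible P)
    {Q : k'[X]} (hQ : Q.Monic) (hQ' : Irreducible Q) (hne : ∀ c, (ph k)^[c] (fp j P) ≠ Q) :
    ∑ c ∈ range (Nat.gcd (Module.finrank k k') P.natDegree), L ((ph k)^[c] (fp j P)) Q =
      L (P.map (algebraMap k k')) Q := by
  obtain ⟨-, -, -, -, k5, -, k7⟩ := h7 k k' j P hm hi
  rw [← Pool.Agent.Y164.PS.L_prod_left, ← k7]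
  · exact hQ'.ne_zero
  · intro c _
    exact (k5 c).2.ne_zero
  · intro c _
    exact coprime_irr (k5 c).1 hQ (k5 c).2 hQ' (hne c)

theorem ph_natDegree (c : ℕ) (T : k'[X]) : ((ph k)^[c] T).natDegree = T.natDegree := by
  induction c with
  | zero => rfl
  | succ c ih =>
    rw [Function.iterate_succ_apply', ph, natDegree_map, ih]

/-- the parity of the degree -/
theorem deg_dec (h7 : Pool.Agent.Q269.GR.S_FCT) (j : k' →ₐ[k] Om k) (ho : Odd (Module.finrank k k')) {P : k[X]}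
    (hm : P.Monic) (hi : Irreducible P) : ((fp j P).natDegree : F2) = (P.natDegree : F2) := by
  obtain ⟨-, -, -, -, k5, -, k7⟩ := h7 k k' j P hm hi
  have h1 := congrArg natDegree k7
  rw [natDegree_map, natDegree_prod_of_monic _ _ fun c _ => (k5 c).1,
    sum_congr rfl (fun c _ => ph_natDegree (k := k) c (fp j P)), sum_const, card_range, smul_eq_mul] at h1
  have h2 : Odd (Nat.gcd (Module.finrank k k') P.natDegree) := Odd.of_dvd_nat ho (Nat.gcd_dvd_left _ _)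
  have h3 := congrArg (Nat.cast : ℕ → F2) h1
  rw [h3, Nat.cast_mul, (ZMod.natCast_eq_one_iff_odd).2 h2, one_mul]

end dec

theorem add_self2 (x : F2) : x + x = 0 := by revert x; decide

/-- the sum over the index type -/
theorem sum_Ip {k : Type} [Field k] [Fintype k] (D : k[X]) (f : k[X] → F2) :
    ∑ P : Ip D, f P.1 = ∑ P ∈ pr D, f P := Finset.sum_coe_sort (pr D) f

theorem vx_mem {k : Type} [Field k] [Fintype k] {n : ℕ} {τ : Type} (D : k[X])
    (w : Pool.Agent.Y164.HG.V (EW n) (Ip D) τ) (T : Ip D) (l : Fin n) : vx D w T.1 l = (w.1 T).1 l := by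
  rw [vx, dif_pos T.2]

theorem deg_sum {k : Type} [Field k] [Fintype k] {Δ D : k[X]} {m : ℕ} (hD : D ∈ Dn Δ m) :
    ∑ P : Ip D, (P.1.natDegree : F2) = (m : F2) := by
  obtain ⟨h1, h2, h3, h4⟩ := Pool.Agent.Q162.GR.mem_Dn.1 hD
  have h5 : (∏ P ∈ pr D, P).natDegree = ∑ P ∈ pr D, P.natDegree :=
    natDegree_prod_of_monic _ _ fun P hP => (mem_pr' hP).1
  rw [Pool.Agent.Q162.GR.prod_pr h1 h3, h2] at h5
  rw [sum_Ip D (fun P => (P.natDegree : F2)), h5, Nat.cast_sum]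

theorem t_EXT (h1 : S_HYM) (h2 : S_BAD) (h3 : S_RAD) (h4 : S_CNV) (h5 : S_TWB) (h6 : S_CST)
    (h7 : Pool.Agent.Q269.GR.S_FCT) (h8 : Pool.Agent.Q269.GR.S_FCD) (h9 : Pool.Agent.Q269.GR.S_SYR)
    (h10 : Pool.Agent.Q269.GR.S_PAS) (h11 : Pool.Agent.Q269.GR.S_XIR) : S_EXT := by
  intro k k' _ _ _ _ _ n a N H H' hE m hodd D hD hTR hG
  haveI hfact : Fact (Odd n) := ⟨H.hn⟩
  obtain ⟨σ, hσ, hT⟩ := hTR
  have hD0 : D ≠ 0 := (Pool.Agent.Q162.GR.mem_Dn.1 hD).1.ne_zero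
  obtain ⟨-, hDel, hDn⟩ := h1 k k' n a N H
  have hD' := hDn m D hD
  have j : k' →ₐ[k] Om k := IsAlgClosed.lift
  obtain ⟨β, hβ⟩ := h2 k k' n a N H H' hE
  obtain ⟨f1, f2, f3⟩ := h8 k k' j
  have hsyr := fun P (hm : Monic P) hi => (h9 k k' j H.hk hE.odd P hm hi).2
  -- the prime factors of `D` are different from the nodes
  have hne : ∀ P ∈ pr D, ∀ s : Tau a, P ≠ QQ a s := by
    rintro P hP s rfl
    have hc : IsCoprime D (Del a) := (Pool.Agent.Q162.GR.mem_Dn.1 hD).2.2.2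
    have q1 : QQ a s ∣ D := ((Pool.Agent.Q162.GR.mem_pr hD0 _).1 hP).2.2
    have q2 : QQ a s ∣ Del a := (H.mem.1 s.2).2.2
    exact (H.fam.irr s).not_isUnit (hc.isUnit_of_dvd' q1 q2)
  have hQf : ∀ s : Tau a, QQ (am k' a) (β s) = fp j (QQ a s) := by
    intro s
    rw [(hβ s).1]
    exact (f3 (QQ a s) (H.fam.mon s) (H.fam.irr s)
      (hE.cop _ (H.fam.mon s) (H.fam.irr s) (H.mem.1 s.2).2.2)).2.symm
  have hLQ : ∀ P ∈ pr D, ∀ s : Tau a,
      ∑ c ∈ range (Nat.gcd (Module.finrank k k') P.natDegree),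
        L ((ph k)^[c] (fp j P)) (QQ (am k' a) (β s)) = L P (QQ a s) := by
    intro P hP s
    obtain ⟨hm, hi⟩ := mem_pr' hP
    rw [sum_L h7 j hm hi (H'.fam.mon (β s)) (H'.fam.irr (β s)), (hβ s).2.2.2.2.1 P]
    intro c
    rw [hQf]
    exact f2 P (QQ a s) hm hi (H.fam.mon s) (H.fam.irr s) (hne P hP s) c 0
  have hLP : ∀ P ∈ pr D, ∀ P2 ∈ pr D, P2 ≠ P →
      ∑ c ∈ range (Nat.gcd (Module.finrank k k') P2.natDegree),
        L ((ph k)^[c] (fp j P2)) (fp j P) = L P2 P := by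
    intro P hP P2 hP2 hPP
    obtain ⟨hm, hi⟩ := mem_pr' hP
    obtain ⟨hm2, hi2⟩ := mem_pr' hP2
    obtain ⟨g1, g2, -⟩ := h7 k k' j P hm hi
    rw [sum_L h7 j hm2 hi2 g1 g2, hsyr P hm hi]
    intro c
    exact f2 P2 P hm2 hi2 hm hi hPP c 0
  obtain ⟨σ', hσ'def⟩ : ∃ σ' : Tau (am k' a) → F2, ∀ s', σ' s' =
      ∑ i : Ip (D.map (algebraMap k k')), BT (QQ (am k' a))
        (fun P : Ip (D.map (algebraMap k k')) => P.1) i s' + H'.comb.gg s' := ⟨_, fun _ => rfl⟩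
  have hσ' : ∀ s, σ' (β s) = σ s := by
    intro s
    have e1 : ∑ i : Ip (D.map (algebraMap k k')), BT (QQ (am k' a))
        (fun P : Ip (D.map (algebraMap k k')) => P.1) i (β s) =
        ∑ i : Ip D, BT (QQ a) (fun P : Ip D => P.1) i s := by
      show ∑ i : Ip (D.map (algebraMap k k')), L i.1 (QQ (am k' a) (β s)) =
        ∑ i : Ip D, L i.1 (QQ a s)
      rw [sum_Ip (D.map (algebraMap k k')) (fun T => L T (QQ (am k' a) (β s))),
        sum_Ip D (fun P => L P (QQ a s)), sum_dec h7 h8 j hD0]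
      exact sum_congr rfl fun P hP => hLQ P hP s
    rw [hσ'def, e1, (hβ s).2.2.2.1]
    have h := hσ s
    have h' : ∀ a b c : F2, a + b + c = 0 → b + c = a := by decide
    exact h' _ _ _ h
  refine ⟨σ', fun s => ?_, ?_⟩
  · rw [hσ'def s]
    have h' : ∀ x y : F2, x + y + x + y = 0 := by decide
    exact h' _ _
  intro w hw0 hw
  have hA : ∀ i j : Ip (D.map (algebraMap k k')),
      AT (fun P : Ip (D.map (algebraMap k k')) => P.1) i j =
      AT (fun P : Ip (D.map (algebraMap k k')) => P.1) j i := fun i j =>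
    Pool.Agent.Y164.PS.L_comm H'.hm _ _
  obtain ⟨x0, hx1, hx2⟩ := h3 (EW n) (Ip (D.map (algebraMap k k'))) (Tau (am k' a)) (H'.dat σ')
    (AT fun P : Ip (D.map (algebraMap k k')) => P.1)
    (BT (QQ (am k' a)) fun P : Ip (D.map (algebraMap k k')) => P.1)
    (fun P => (P.1.natDegree : F2)) hA w hw0 hw
  obtain ⟨cn1, cn2⟩ := h4 k' n (am k' a) N H' m _ hD' σ' w x0
  have hq1 : ∀ (T : Ip (D.map (algebraMap k k'))) (l : Fin n),
      EQ1 H' (D.map (algebraMap k k')) w x0 T l = 0 := by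
    intro T l
    rw [← cn1 T l, hx1 T]
    rfl
  have hq2 : ∀ s, EQ2 H' (D.map (algebraMap k k')) σ' w x0 s = 0 := by
    intro s
    rw [← cn2 s, hx2 s]
  -- the vector is constant on the orbits
  have hinv : ∀ T ∈ pr (D.map (algebraMap k k')), ∀ (l : Fin n) (c : ℕ),
      vx (D.map (algebraMap k k')) w ((ph k)^[c] T) l = vx (D.map (algebraMap k k')) w T l := by
    intro T hT' l
    refine h6 (Module.finrank k k') hE.odd
      (fun c => vx (D.map (algebraMap k k')) w ((ph k)^[c] T) l) ?_ ?_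
    · intro c
      obtain ⟨P, hP, c0, rfl⟩ := ex_dec h8 j hD0 hT'
      obtain ⟨hm, hi⟩ := mem_pr' hP
      show vx (D.map (algebraMap k k')) w ((ph k)^[c + Module.finrank k k'] ((ph k)^[c0] (fp j P))) l =
        vx (D.map (algebraMap k k')) w ((ph k)^[c] ((ph k)^[c0] (fp j P))) l
      rw [← Function.iterate_add_apply, ← Function.iterate_add_apply,
        show c + Module.finrank k k' + c0 = c + c0 + Module.finrank k k' by ring,
        per_dec h7 j hm hi]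
    · intro r hr hre u hu
      have hro : Odd r := Odd.of_dvd_nat hE.odd hre
      have hord : orderOf (xi r ^ u) = r := by
        have h := (h11 r hro hr).ord
        rw [Nat.Coprime.orderOf_pow, h]
        rw [h]
        exact hu.symm
      exact h5 k k' n a N H H' hE m D hD w x0 hq1 (Fr r) (xi r ^ u) r hord hr hre
        (hG r hr hre u hu) T hT' l
  -- the vector over `k`
  obtain ⟨w0, hw01, hw02⟩ : ∃ w0 : Pool.Agent.Y164.HG.V (EW n) (Ip D) (Tau a),
      (∀ P : Ip D, w0.1 P = w.1 ⟨fp j P.1, mem_dec h7 h8 j hD0 P.2 0⟩) ∧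
      (∀ s, w0.2 s = w.2 (β s)) :=
    ⟨(fun P => w.1 ⟨fp j P.1, mem_dec h7 h8 j hD0 P.2 0⟩, fun s => w.2 (β s)), fun _ => rfl,
      fun _ => rfl⟩
  have hvx : ∀ P ∈ pr D, ∀ (c : ℕ) (l : Fin n),
      vx (D.map (algebraMap k k')) w ((ph k)^[c] (fp j P)) l = vx D w0 P l := by
    intro P hP c l
    rw [hinv (fp j P) (mem_dec h7 h8 j hD0 hP 0) l c]
    rw [vx_mem D w0 ⟨P, hP⟩ l, hw01 ⟨P, hP⟩]
    exact vx_mem (D.map (algebraMap k k')) w ⟨fp j P, mem_dec h7 h8 j hD0 hP 0⟩ l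
  have hqk1 : ∀ (P : Ip D) (l : Fin n), EQ1 H D w0 x0 P l = 0 := by
    intro P l
    obtain ⟨hm, hi⟩ := mem_pr' P.2
    have key := hq1 ⟨fp j P.1, mem_dec h7 h8 j hD0 P.2 0⟩ l
    rw [← key]
    have e1 : ∑ P' : Ip D, L P'.1 P.1 * ((w0.1 P').1 l + (w0.1 P).1 l) =
        ∑ P' : Ip (D.map (algebraMap k k')), L P'.1 (fp j P.1) * ((w.1 P').1 l +
          (w.1 ⟨fp j P.1, mem_dec h7 h8 j hD0 P.2 0⟩).1 l) := by
      have r1 : ∑ P' : Ip D, L P'.1 P.1 * ((w0.1 P').1 l + (w0.1 P).1 l) =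
          ∑ P' ∈ pr D, L P' P.1 * (vx D w0 P' l + vx D w0 P.1 l) := by
        rw [← sum_Ip D (fun P' => L P' P.1 * (vx D w0 P' l + vx D w0 P.1 l))]
        refine sum_congr rfl fun P' _ => ?_
        rw [vx_mem, vx_mem]
      have r2 : ∑ P' : Ip (D.map (algebraMap k k')), L P'.1 (fp j P.1) * ((w.1 P').1 l +
          (w.1 ⟨fp j P.1, mem_dec h7 h8 j hD0 P.2 0⟩).1 l) =
          ∑ T ∈ pr (D.map (algebraMap k k')), L T (fp j P.1) *
            (vx (D.map (algebraMap k k')) w T l + vx D w0 P.1 l) := by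
        rw [← sum_Ip (D.map (algebraMap k k')) (fun T => L T (fp j P.1) *
            (vx (D.map (algebraMap k k')) w T l + vx D w0 P.1 l))]
        refine sum_congr rfl fun T _ => ?_
        rw [vx_mem, vx_mem D w0 P, hw01]
      rw [r1, r2, sum_dec h7 h8 j hD0]
      refine sum_congr rfl fun P2 hP2 => ?_
      rw [sum_congr rfl (fun c _ => by rw [hvx P2 hP2 c l]), ← sum_mul]
      by_cases hPP : P2 = P.1
      · rw [hPP, add_self2, mul_zero, mul_zero]
      · rw [hLP P.1 P.2 P2 hP2 hPP]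
    have eb : xb a P.1 = xb (am k' a) (fp j P.1) := by
      funext l1 l2
      show L (a l1 - a l2) P.1 = L ((a l1).map (algebraMap k k') - (a l2).map (algebraMap k k')) (fp j P.1)
      rw [← Polynomial.map_sub, hsyr P.1 hm hi]
    have e3 : ∑ s : Tau a, L (QQ a s) P.1 * (w0.2 s * e2 (H.p s) (H.q s) l) =
        ∑ s : Tau (am k' a), L (QQ (am k' a) s) (fp j P.1) * (w.2 s * e2 (H'.p s) (H'.q s) l) := by
      rw [← Equiv.sum_comp β]
      refine sum_congr rfl fun s _ => ?_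
      rw [(hβ s).1, hsyr P.1 hm hi, (hβ s).2.1, (hβ s).2.2.1, hw02]
    have e4 : ((fp j P.1).natDegree : F2) = (P.1.natDegree : F2) := deg_dec h7 j hE.odd hm hi
    rw [EQ1, EQ1, e1, eb, e3, ← e4, hw01 P]
  have hqk2 : ∀ s : Tau a, EQ2 H D σ w0 x0 s = 0 := by
    intro s
    have key := hq2 (β s)
    rw [← key]
    have e1 : ∑ P : Ip D, L P.1 (QQ a s) * ((w0.1 P).1 (H.p s) + (w0.1 P).1 (H.q s)) =
        ∑ T : Ip (D.map (algebraMap k k')), L T.1 (QQ (am k' a) (β s)) *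
          ((w.1 T).1 (H.p s) + (w.1 T).1 (H.q s)) := by
      have r1 : ∑ P : Ip D, L P.1 (QQ a s) * ((w0.1 P).1 (H.p s) + (w0.1 P).1 (H.q s)) =
          ∑ P ∈ pr D, L P (QQ a s) * (vx D w0 P (H.p s) + vx D w0 P (H.q s)) := by
        rw [← sum_Ip D (fun P => L P (QQ a s) * (vx D w0 P (H.p s) + vx D w0 P (H.q s)))]
        refine sum_congr rfl fun P' _ => ?_
        rw [vx_mem, vx_mem]
      have r2 : ∑ T : Ip (D.map (algebraMap k k')), L T.1 (QQ (am k' a) (β s)) *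
          ((w.1 T).1 (H.p s) + (w.1 T).1 (H.q s)) =
          ∑ T ∈ pr (D.map (algebraMap k k')), L T (QQ (am k' a) (β s)) *
            (vx (D.map (algebraMap k k')) w T (H.p s) + vx (D.map (algebraMap k k')) w T (H.q s)) := by
        rw [← sum_Ip (D.map (algebraMap k k')) (fun T => L T (QQ (am k' a) (β s)) *
            (vx (D.map (algebraMap k k')) w T (H.p s) + vx (D.map (algebraMap k k')) w T (H.q s)))]
        refine sum_congr rfl fun T _ => ?_
        rw [vx_mem, vx_mem]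
      rw [r1, r2, sum_dec h7 h8 j hD0]
      refine sum_congr rfl fun P2 hP2 => ?_
      rw [sum_congr rfl (fun c _ => by rw [hvx P2 hP2 c (H.p s), hvx P2 hP2 c (H.q s)]), ← sum_mul,
        hLQ P2 hP2 s]
    have e3 : ∑ s' : Tau a, L (QQ a s) (QQ a s') * (w0.2 s' * (e2 (H.p s') (H.q s') (H.p s) +
          e2 (H.p s') (H.q s') (H.q s))) =
        ∑ s' : Tau (am k' a), L (QQ (am k' a) (β s)) (QQ (am k' a) s') *
          (w.2 s' * (e2 (H'.p s') (H'.q s') (H.p s) + e2 (H'.p s') (H'.q s') (H.q s))) := by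
      rw [← Equiv.sum_comp β]
      refine sum_congr rfl fun s' _ => ?_
      rw [(hβ s).1, (hβ s').2.2.2.2.1, (hβ s').2.1, (hβ s').2.2.1, hw02]
    rw [EQ2, EQ2, (hβ s).2.1, (hβ s).2.2.1, (hβ s).2.2.2.2.2.2, hσ' s, e1, e3, hw02]
  obtain ⟨dn1, dn2⟩ := h4 k n a N H m D hD σ w0 x0
  have hE1 : ∀ P : Ip D, E1 (A := AT fun P : Ip D => P.1) (H.dat σ) (BT (QQ a) fun P : Ip D => P.1)
      (fun P => (P.1.natDegree : F2)) w0 x0 P = 0 := by
    intro P
    apply Subtype.ext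
    funext l
    rw [dn1 P l, hqk1 P l]
    rfl
  have hE2 : ∀ s : Tau a, E2 (ι := Ip D) (H.dat σ) (BT (QQ a) fun P : Ip D => P.1) w0 x0 s = 0 := by
    intro s
    rw [dn2 s, hqk2 s]
  have hmN : (m : F2) + (N : F2) = 1 := by
    rw [← Nat.cast_add]
    exact (ZMod.natCast_eq_one_iff_odd).2 hodd
  have hN1 : ∑ P : Ip D, (P.1.natDegree : F2) + (H.dat σ).N = 1 := by
    rw [deg_sum hD]
    exact hmN
  obtain ⟨y, hy1, -⟩ := Pool.Agent.Y164.HG.key_of_triv (H.dat σ) (BT (QQ a) fun P : Ip D => P.1)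
    (fun P => (P.1.natDegree : F2)) hσ hN1 hT w0 x0 hE1 hE2
  have hwT : w = TT (H'.dat σ') y := by
    apply Prod.ext
    · funext T
      obtain ⟨T, hT'⟩ := T
      obtain ⟨P, hP, c, rfl⟩ := ex_dec h8 j hD0 hT'
      apply Subtype.ext
      funext l
      have e1 := hvx P hP c l
      rw [vx_mem (D.map (algebraMap k k')) w ⟨_, hT'⟩ l, vx_mem D w0 ⟨P, hP⟩ l, hy1] at e1
      exact e1
    · funext s'
      obtain ⟨s, rfl⟩ := β.surjective s'
      have e1 := hw02 s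
      rw [hy1] at e1
      rw [← e1]
      show om y (Pool.Agent.Y164.HG.E2v (H.p s) (H.q s)) =
        om y (Pool.Agent.Y164.HG.E2v (H'.p (β s)) (H'.q (β s)))
      rw [(hβ s).2.1, (hβ s).2.2.1]
  have hN2 : ∑ P : Ip (D.map (algebraMap k k')), (P.1.natDegree : F2) + (H'.dat σ').N = 1 := by
    rw [deg_sum hD']
    exact hmN
  have hy0 : y = 0 := by
    have e1 := hw0
    rw [hwT, Pool.Agent.Y164.HG.dg_TT, hN2, one_smul] at e1
    exact e1
  rw [hwT, hy0]
  apply Prod.ext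
  · rfl
  · funext s
    exact Pool.Agent.Y164.HG.om_zero_left _

end Pool.Agent.Q174.GJ
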